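import Pool.Agent.W172.MK.Stm

set_option autoImplicit false

/-!
# Project MK: representation of the bridge kernel
-/

namespace Pool.Agent.W490.MK

open MeasureTheory ProbabilityTheory Filter Topology Pool.Agent.W172.MK

/-- **REP** -/
theorem rep : P_REP := by
  intro S _ _ _ μ _ p hp
  obtain ⟨C, hC⟩ := hp.bdd
  -- the density
  set g : S × S → S → ℝ := fun a z => p a.1 z * p z a.2 with hg
  have hgm : Measurable (Function.uncurry g) := by
    have h1 : Measurable fun q : (S × S) × S => p q.1.1 q.2 :=
      hp.meas.comp (f := fun q : (S × S) × S => (q.1.1, q.2))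
        ((measurable_fst.fst).prodMk measurable_snd)
    have h2 : Measurable fun q : (S × S) × S => p q.2 q.1.2 :=
      hp.meas.comp (f := fun q : (S × S) × S => (q.2, q.1.2))
        (measurable_snd.prodMk (measurable_fst.snd))
    exact h1.mul h2
  have hg0 : ∀ a z, 0 ≤ g a z := fun a z => mul_nonneg (hp.nonneg _ _) (hp.nonneg _ _)
  have hga : ∀ a, Measurable (g a) := fun a =>
    hgm.comp (f := fun z : S => (a, z)) (measurable_const.prodMk measurable_id)
  have hgi : ∀ a, Integrable (g a) μ := by
    intro a
    refine Integrable.of_bound (hga a).aestronglyMeasurable (C * C)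
      (Filter.Eventually.of_forall fun z => ?_)
    rw [Real.norm_of_nonneg (hg0 a z)]
    exact mul_le_mul (hC _ _) (hC _ _) (hp.nonneg _ _) ((hp.nonneg _ _).trans (hC a.1 z))
  have hgE : Measurable (Function.uncurry fun a z => ENNReal.ofReal (g a z)) :=
    hgm.ennreal_ofReal
  set κ : Kernel (S × S) S :=
    Kernel.withDensity (Kernel.const (S × S) μ) (fun a z => ENNReal.ofReal (g a z)) with hκ
  have hκa : ∀ a, κ a = μ.withDensity (fun z => ENNReal.ofReal (g a z)) := by
    intro a
    rw [hκ, Kernel.withDensity_apply _ hgE, Kernel.const_apply]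
  have hmk : IsMarkovKernel κ := by
    refine ⟨fun a => ⟨?_⟩⟩
    rw [hκa, withDensity_apply _ MeasurableSet.univ, Measure.restrict_univ,
      ← ofReal_integral_eq_lintegral_ofReal (hgi a) (Filter.Eventually.of_forall (hg0 a))]
    have : ∫ z, g a z ∂μ = 1 := hp.sq a.1 a.2
    rw [this, ENNReal.ofReal_one]
  obtain ⟨F, hF, hFm⟩ := Kernel.exists_measurable_map_eq_unitInterval κ
  refine ⟨F, hF, ?_⟩
  intro x y f hf _
  have hFxy : Measurable (F (x, y)) :=
    hF.comp (f := fun u : unitInterval => ((x, y), u)) (measurable_const.prodMk measurable_id)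
  have h1 : ∫ u, f (F (x, y) u) = ∫ z, f z ∂(κ (x, y)) := by
    rw [← hFm (x, y), integral_map hFxy.aemeasurable hf.aestronglyMeasurable]
  rw [h1, hκa, integral_withDensity_eq_integral_toReal_smul (hga (x, y)).ennreal_ofReal
    (Filter.Eventually.of_forall fun z => ENNReal.ofReal_lt_top)]
  refine integral_congr_ae (Filter.Eventually.of_forall fun z => ?_)
  simp only [smul_eq_mul]
  rw [ENNReal.toReal_ofReal (hg0 _ z), mul_comm]

end Pool.Agent.W490.MK
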